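import Pool.Agent.Lib.MP_eee7a8_ag.TB.Iface4

/-!
# TAGBR, module FORMA: elementary properties of forms
-/

open Matrix

namespace Pool.Agent.Lib.MP_eee7a8_ag.TB.C80

theorem ev_act (g : SLZ) (B : Form) (a b : Cusp) : (Form.act g B).ev (g • a) (g • b) =
    ((eps g a * eps g b : ℤ) : ℝ) * B.ev a b := by
  have hd : (g.1 0 0 : ℝ) * g.1 1 1 - g.1 0 1 * g.1 1 0 = 1 := by exact_mod_cast det_eq g
  unfold Form.ev Form.act
  rw [smul_x' g a, smul_y' g a, smul_x' g b, smul_y' g b]
  push_cast
  linear_combination ((eps g a : ℝ) * eps g b * (B.p * a.x * b.x +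
    B.q * (a.x * b.y + a.y * b.x) + B.r * a.y * b.y) *
    ((g.1 0 0 : ℝ) * g.1 1 1 - g.1 0 1 * g.1 1 0 + 1)) * hd

theorem act_act (g h : SLZ) (B : Form) : Form.act g (Form.act h B) = Form.act (g * h) B := by
  ext
  · simp only [Form.act, Matrix.SpecialLinearGroup.coe_mul, Matrix.mul_apply, Fin.sum_univ_two]
    push_cast
    ring
  · simp only [Form.act, Matrix.SpecialLinearGroup.coe_mul, Matrix.mul_apply, Fin.sum_univ_two]
    push_cast
    ring
  · simp only [Form.act, Matrix.SpecialLinearGroup.coe_mul, Matrix.mul_apply, Fin.sum_univ_two]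
    push_cast
    ring

theorem act_one (B : Form) : Form.act 1 B = B := by
  ext <;> simp [Form.act]

theorem det_act (g : SLZ) (B : Form) : (Form.act g B).p * (Form.act g B).r -
    (Form.act g B).q ^ 2 = B.p * B.r - B.q ^ 2 := by
  have hd : (g.1 0 0 : ℝ) * g.1 1 1 - g.1 0 1 * g.1 1 0 = 1 := by exact_mod_cast det_eq g
  simp only [Form.act]
  linear_combination ((B.p * B.r - B.q ^ 2) *
    ((g.1 0 0 : ℝ) * g.1 1 1 - g.1 0 1 * g.1 1 0 + 1)) * hd

/-- quadratic form bound -/
theorem quad_nonneg {p q r : ℝ} (hp : 0 ≤ p) (hr : 0 ≤ r) (h : q ^ 2 ≤ p * r) (u v : ℝ) :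
    0 ≤ p * u ^ 2 - 2 * q * u * v + r * v ^ 2 := by
  by_cases h0 : p = 0
  · subst h0
    have hq : q = 0 := by nlinarith [sq_nonneg q]
    subst hq
    nlinarith [mul_nonneg hr (sq_nonneg v)]
  · have hp' : 0 < p := lt_of_le_of_ne hp (Ne.symm h0)
    have : 0 ≤ p * (p * u ^ 2 - 2 * q * u * v + r * v ^ 2) := by
      nlinarith [sq_nonneg (p * u - q * v), mul_nonneg (sub_nonneg.2 h) (sq_nonneg v)]
    exact nonneg_of_mul_nonneg_right this hp'

theorem psd_act (g : SLZ) (B : Form) (hB : B.Psd) : (Form.act g B).Psd := by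
  obtain ⟨hp, hr, hq, hpos⟩ := hB
  have h1 : 0 ≤ (Form.act g B).p := by
    have := quad_nonneg hp hr hq (g.1 1 1) (g.1 1 0)
    simp only [Form.act]
    linarith
  have h2 : 0 ≤ (Form.act g B).r := by
    have := quad_nonneg hp hr hq (g.1 0 1) (g.1 0 0)
    simp only [Form.act]
    linarith
  have h3 := det_act g B
  refine ⟨h1, h2, by linarith, ?_⟩
  by_contra hn
  have h4 : (Form.act g B).p = 0 := by linarith
  have h5 : (Form.act g B).r = 0 := by linarith
  have h6 : (Form.act g B).q = 0 := by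
    have : (Form.act g B).q ^ 2 ≤ 0 := by
      rw [h4, h5] at h3
      linarith
    exact pow_eq_zero_iff two_ne_zero |>.1 (le_antisymm this (sq_nonneg _))
  have h7 : Form.act g⁻¹ (Form.act g B) = B := by
    rw [act_act, inv_mul_cancel, act_one]
  have h8 : B.p = 0 := by
    rw [← h7]
    simp only [Form.act] at h4 h5 h6 ⊢
    rw [h4, h5, h6]
    ring
  have h9 : B.r = 0 := by
    rw [← h7]
    simp only [Form.act] at h4 h5 h6 ⊢
    rw [h4, h5, h6]
    ring
  rw [h8, h9] at hpos
  linarith

theorem pd_act (g : SLZ) (B : Form) (hp : 0 < B.p) (hq : B.q ^ 2 < B.p * B.r) :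
    0 < (Form.act g B).p ∧ (Form.act g B).q ^ 2 < (Form.act g B).p * (Form.act g B).r := by
  have h3 := det_act g B
  have hr : 0 < B.r := by
    by_contra hn
    have : B.p * B.r ≤ 0 := mul_nonpos_of_nonneg_of_nonpos hp.le (not_lt.1 hn)
    nlinarith [sq_nonneg B.q]
  have hpsd := psd_act g B ⟨hp.le, hr.le, hq.le, by linarith⟩
  refine ⟨?_, by linarith⟩
  rcases hpsd.1.lt_or_eq with h | h
  · exact h
  · rw [← h] at h3
    nlinarith [sq_nonneg (Form.act g B).q]

theorem act_cform (g : SLZ) (z : Cusp) : Form.act g (cform z) = cform (g • z) := by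
  have he : ((eps g z : ℤ) : ℝ) ^ 2 = 1 := by
    have := eps_sq g z
    rw [pow_two]
    exact_mod_cast this
  ext
  · simp only [Form.act, cform]
    rw [smul_y']
    push_cast
    rw [mul_pow, he]
    ring
  · simp only [Form.act, cform]
    rw [smul_y', smul_x']
    push_cast
    linear_combination (((g.1 0 0 : ℝ) * z.x + g.1 0 1 * z.y) *
      ((g.1 1 0 : ℝ) * z.x + g.1 1 1 * z.y)) * he
  · simp only [Form.act, cform]
    rw [smul_x']
    push_cast
    rw [mul_pow, he]
    ring

theorem cform_psd (z : Cusp) : (cform z).Psd ∧ ∀ a b, (cform z).ev a b = (dt z a : ℝ) * dt z b := by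
  refine ⟨⟨sq_nonneg _, sq_nonneg _, ?_, ?_⟩, ?_⟩
  · simp only [cform]
    apply le_of_eq
    ring
  · simp only [cform]
    rcases z.ne_zero with h | h
    · have : (z.x : ℝ) ≠ 0 := by exact_mod_cast h
      positivity
    · have : (z.y : ℝ) ≠ 0 := by exact_mod_cast h
      positivity
  · intro a b
    simp only [cform, Form.ev, dt]
    push_cast
    ring

theorem coeff_zero_of_transcendental {t : ℝ} (ht : Transcendental ℤ t) (c0 c1 c2 : ℤ)
    (h : (c0 : ℝ) + c1 * t + c2 * t ^ 2 = 0) : c0 = 0 ∧ c1 = 0 ∧ c2 = 0 := by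
  rw [transcendental_iff] at ht
  have h1 := ht (Polynomial.C c0 + Polynomial.C c1 * Polynomial.X +
    Polynomial.C c2 * Polynomial.X ^ 2) (by
      simp only [map_add, map_mul, Polynomial.aeval_C, Polynomial.aeval_X, map_pow]
      simp only [eq_intCast]
      exact h)
  have h2 := congrArg (fun p => Polynomial.coeff p 0) h1
  have h3 := congrArg (fun p => Polynomial.coeff p 1) h1
  have h4 := congrArg (fun p => Polynomial.coeff p 2) h1
  simp only [Polynomial.coeff_add, Polynomial.coeff_C_mul, Polynomial.coeff_C,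
    Polynomial.coeff_X_pow, Polynomial.coeff_X, Polynomial.coeff_zero] at h2 h3 h4
  norm_num at h2 h3 h4
  exact ⟨h2, h3, h4⟩

theorem exists_generic : ∃ B : Form, 0 < B.p ∧ B.q ^ 2 < B.p * B.r ∧
    ∀ a b : Cusp, B.ev a b ≠ 0 := by
  have ht : Transcendental ℤ (liouvilleNumber 2) := by
    have := transcendental_liouvilleNumber (m := 2) le_rfl
    exact_mod_cast this
  set t : ℝ := liouvilleNumber 2 with htdef
  refine ⟨⟨1, t, t ^ 2 + 1⟩, one_pos, by simp, ?_⟩
  intro a b h
  simp only [Form.ev] at h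
  obtain ⟨h2, h3, h4⟩ := coeff_zero_of_transcendental ht (a.x * b.x + a.y * b.y)
    (a.x * b.y + a.y * b.x) (a.y * b.y) (by push_cast; linear_combination h)
  rw [mul_eq_zero] at h4
  have h5 : a.x * b.x = 0 := by
    rcases h4 with h | h <;> rw [h] at h2 <;> simpa using h2
  rcases h4 with h4 | h4
  · have hax : a.x ≠ 0 := by
      rcases a.ne_zero with h | h
      · exact h
      · exact absurd h4 h
    have hbx : b.x = 0 := by
      rcases mul_eq_zero.1 h5 with h | h
      · exact absurd h hax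
      · exact h
    have hby : b.y ≠ 0 := by
      rcases b.ne_zero with h | h
      · exact absurd hbx h
      · exact h
    rw [h4, hbx] at h3
    simp at h3
    rcases h3 with h | h
    · exact hax h
    · exact hby h
  · have hbx : b.x ≠ 0 := by
      rcases b.ne_zero with h | h
      · exact h
      · exact absurd h4 h
    have hax : a.x = 0 := by
      rcases mul_eq_zero.1 h5 with h | h
      · exact h
      · exact absurd h hbx
    have hay : a.y ≠ 0 := by
      rcases a.ne_zero with h | h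
      · exact absurd hax h
      · exact h
    rw [h4, hax] at h3
    simp at h3
    rcases h3 with h | h
    · exact hay h
    · exact hbx h

/-- FORMA. -/
theorem forma : FormaStatement :=
  ⟨ev_act, act_act, psd_act, pd_act, act_cform, cform_psd, exists_generic⟩

end Pool.Agent.Lib.MP_eee7a8_ag.TB.C80
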