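import Pool.Agent.Lib.MP_eee7a8_ag.TB.Iface4

/-!
# TAGBR, module FORMB: finiteness of the set of separating strands
-/

open Matrix

namespace Pool.Agent.Lib.MP_eee7a8_ag.TB.C80

/-- `|dt|` is constant on the translates of `e`. -/
theorem abs_dt_of_ge {G : Subgroup SLZ} {p : Cusp × Cusp} {a b : Cusp}
    (h : Ge G (some p) a b) : |dt a b| = |dt p.1 p.2| := by
  obtain ⟨q, hq, g, -, h⟩ := h
  rw [Option.some.injEq] at hq
  subst hq
  rcases h with ⟨h1, h2⟩ | ⟨h1, h2⟩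
  · rw [← h1, ← h2, abs_dt_smul]
  · rw [← h1, ← h2, dt_abs_symm, abs_dt_smul]

/-- A positive definite form is bounded below by a multiple of `x² + y²`. -/
theorem pd_bound (B : Form) (hp : 0 < B.p) (hq : B.q ^ 2 < B.p * B.r) :
    ∃ ε : ℝ, 0 < ε ∧ ∀ a : Cusp, ε * ((a.x : ℝ) ^ 2 + (a.y : ℝ) ^ 2) ≤ B.ev a a := by
  have hr : 0 < B.r := by
    by_contra hn
    have : B.p * B.r ≤ 0 := mul_nonpos_of_nonneg_of_nonpos hp.le (not_lt.1 hn)
    nlinarith [sq_nonneg B.q]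
  refine ⟨(B.p * B.r - B.q ^ 2) / (B.p + B.r), div_pos (by linarith) (by linarith), ?_⟩
  intro a
  rw [div_mul_eq_mul_div, div_le_iff₀ (by linarith)]
  unfold Form.ev
  nlinarith [sq_nonneg (B.p * a.x + B.q * a.y), sq_nonneg (B.q * a.x + B.r * a.y)]

theorem finite_cusp_bound (M : ℝ) : {a : Cusp | (a.x : ℝ) ^ 2 + (a.y : ℝ) ^ 2 ≤ M}.Finite := by
  obtain ⟨N, hN⟩ := exists_nat_ge M
  have hinj : Set.InjOn (fun a : Cusp => (a.x, a.y))
      {a : Cusp | (a.x : ℝ) ^ 2 + (a.y : ℝ) ^ 2 ≤ M} := by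
    intro a _ b _ h
    simp only [Prod.mk.injEq] at h
    exact Cusp.ext h.1 h.2
  refine Set.Finite.of_finite_image ?_ hinj
  refine (Set.finite_Icc ((-(N : ℤ), -(N : ℤ)) : ℤ × ℤ) (N, N)).subset ?_
  rintro _ ⟨a, ha, rfl⟩
  simp only [Set.mem_ofPred_eq] at ha
  have h1 : a.x ^ 2 + a.y ^ 2 ≤ (N : ℤ) := by
    have : (a.x : ℝ) ^ 2 + (a.y : ℝ) ^ 2 ≤ (N : ℝ) := ha.trans hN
    exact_mod_cast this
  have hx : a.x ^ 2 ≤ N := by nlinarith [sq_nonneg a.y]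
  have hy : a.y ^ 2 ≤ N := by nlinarith [sq_nonneg a.x]
  have key : ∀ z : ℤ, z ^ 2 ≤ N → -(N : ℤ) ≤ z ∧ z ≤ N := by
    intro z hz
    have hz1 : |z| ≤ N := by
      have : |z| ≤ |z| ^ 2 := by
        rcases eq_or_ne z 0 with h | h
        · simp [h]
        · have := Int.one_le_abs h
          nlinarith
      rw [sq_abs] at this
      linarith
    exact abs_le.1 hz1
  exact ⟨⟨(key _ hx).1, (key _ hy).1⟩, ⟨(key _ hx).2, (key _ hy).2⟩⟩

theorem one_le_norm (a : Cusp) : (1 : ℝ) ≤ (a.x : ℝ) ^ 2 + (a.y : ℝ) ^ 2 := by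
  have : (1 : ℤ) ≤ a.x ^ 2 + a.y ^ 2 := by
    rcases a.ne_zero with h | h
    · have := Int.one_le_abs h
      nlinarith [sq_nonneg a.y, sq_abs a.x]
    · have := Int.one_le_abs h
      nlinarith [sq_nonneg a.x, sq_abs a.y]
  exact_mod_cast this

theorem formb_pd (G : Subgroup SLZ) (e : Option (Cusp × Cusp)) (B B' : Form) (hp : 0 < B.p)
    (hp' : 0 < B'.p) (hq : B.q ^ 2 < B.p * B.r) (hq' : B'.q ^ 2 < B'.p * B'.r) :
    (Sep G e B B').Finite := by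
  rcases e with _ | p
  · convert Set.finite_empty
    rw [Set.eq_empty_iff_forall_notMem]
    rintro s ⟨⟨q, hq, -⟩, -⟩
    simp at hq
  have hr : 0 < B.r := by
    by_contra hn
    have : B.p * B.r ≤ 0 := mul_nonpos_of_nonneg_of_nonpos hp.le (not_lt.1 hn)
    nlinarith [sq_nonneg B.q]
  have hr' : 0 < B'.r := by
    by_contra hn
    have : B'.p * B'.r ≤ 0 := mul_nonpos_of_nonneg_of_nonpos hp'.le (not_lt.1 hn)
    nlinarith [sq_nonneg B'.q]
  obtain ⟨ε, hε, hb⟩ := pd_bound B hp hq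
  obtain ⟨ε', hε', hb'⟩ := pd_bound B' hp' hq'
  set δ := min ε ε' with hδ
  have hδ0 : 0 < δ := lt_min hε hε'
  set C : ℝ := (B.p + B'.p) * (B.r + B'.r) * (dt p.1 p.2 : ℝ) ^ 2 / δ ^ 2 with hC
  refine ((finite_cusp_bound C).prod (finite_cusp_bound C)).subset ?_
  rintro ⟨c, d⟩ ⟨hG, hs⟩
  simp only at hG hs
  -- the convex combination vanishing on `c, d`
  have ⟨u, v, hu, hv, huv, h0⟩ : ∃ u v : ℝ, 0 ≤ u ∧ 0 ≤ v ∧ u + v = 1 ∧
      u * B.ev c d + v * B'.ev c d = 0 := by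
    have hne : B.ev c d - B'.ev c d ≠ 0 := by
      intro h
      have : B.ev c d = B'.ev c d := by linarith
      rw [this] at hs
      nlinarith [mul_self_nonneg (B'.ev c d)]
    have hsq : 0 < (B.ev c d - B'.ev c d) ^ 2 := by positivity
    refine ⟨B'.ev c d * (B'.ev c d - B.ev c d) / (B.ev c d - B'.ev c d) ^ 2,
      B.ev c d * (B.ev c d - B'.ev c d) / (B.ev c d - B'.ev c d) ^ 2, ?_, ?_, ?_, ?_⟩
    · apply div_nonneg _ hsq.le
      nlinarith [mul_self_nonneg (B'.ev c d)]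
    · apply div_nonneg _ hsq.le
      nlinarith [mul_self_nonneg (B.ev c d)]
    · field_simp
      ring
    · field_simp
      ring
  set P := u * B.p + v * B'.p with hP
  set Q := u * B.q + v * B'.q with hQ
  set R := u * B.r + v * B'.r with hR
  have hu1 : u ≤ 1 := by linarith
  have hv1 : v ≤ 1 := by linarith
  have hPR : P * R - Q ^ 2 ≤ (B.p + B'.p) * (B.r + B'.r) := by
    have h1 : P ≤ B.p + B'.p := by
      rw [hP]
      nlinarith
    have h2 : R ≤ B.r + B'.r := by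
      rw [hR]
      nlinarith
    have h3 : 0 ≤ R := by rw [hR]; positivity
    have h4 : P * R ≤ (B.p + B'.p) * (B.r + B'.r) := by
      apply mul_le_mul h1 h2 h3 (by linarith)
    nlinarith [sq_nonneg Q]
  have hlow : ∀ a : Cusp, δ * ((a.x : ℝ) ^ 2 + (a.y : ℝ) ^ 2) ≤ u * B.ev a a + v * B'.ev a a := by
    intro a
    have hn : (0 : ℝ) ≤ (a.x : ℝ) ^ 2 + (a.y : ℝ) ^ 2 := by positivity
    have h1 := (mul_le_mul_of_nonneg_right (min_le_left ε ε') hn).trans (hb a)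
    have h2 := (mul_le_mul_of_nonneg_right (min_le_right ε ε') hn).trans (hb' a)
    rw [← hδ] at h1 h2
    have h3 := mul_le_mul_of_nonneg_left h1 hu
    have h4 := mul_le_mul_of_nonneg_left h2 hv
    have h5 : δ * ((a.x : ℝ) ^ 2 + (a.y : ℝ) ^ 2) = u * (δ * ((a.x : ℝ) ^ 2 + (a.y : ℝ) ^ 2)) +
        v * (δ * ((a.x : ℝ) ^ 2 + (a.y : ℝ) ^ 2)) := by
      rw [← add_mul, huv, one_mul]
    rw [h5]
    linarith
  have hprod : (u * B.ev c c + v * B'.ev c c) * (u * B.ev d d + v * B'.ev d d) =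
      (P * R - Q ^ 2) * (dt c d : ℝ) ^ 2 := by
    have h1 : (u * B.ev c c + v * B'.ev c c) * (u * B.ev d d + v * B'.ev d d) -
        (u * B.ev c d + v * B'.ev c d) ^ 2 = (P * R - Q ^ 2) * (dt c d : ℝ) ^ 2 := by
      rw [hP, hQ, hR]
      unfold Form.ev dt
      push_cast
      ring
    rw [h0] at h1
    linarith
  have hdt : (dt c d : ℝ) ^ 2 = (dt p.1 p.2 : ℝ) ^ 2 := by
    have := abs_dt_of_ge hG
    have h2 : (dt c d) ^ 2 = (dt p.1 p.2) ^ 2 := by rw [← sq_abs, this, sq_abs]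
    exact_mod_cast h2
  have hc := hlow c
  have hd := hlow d
  have hc1 := one_le_norm c
  have hd1 := one_le_norm d
  have hmul : (δ * ((c.x : ℝ) ^ 2 + (c.y : ℝ) ^ 2)) * (δ * ((d.x : ℝ) ^ 2 + (d.y : ℝ) ^ 2)) ≤
      (B.p + B'.p) * (B.r + B'.r) * (dt p.1 p.2 : ℝ) ^ 2 := by
    have h1 : (δ * ((c.x : ℝ) ^ 2 + (c.y : ℝ) ^ 2)) * (δ * ((d.x : ℝ) ^ 2 + (d.y : ℝ) ^ 2)) ≤
        (u * B.ev c c + v * B'.ev c c) * (u * B.ev d d + v * B'.ev d d) := by
      apply mul_le_mul hc hd (by positivity)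
      exact le_trans (by positivity) hc
    rw [hprod, hdt] at h1
    exact h1.trans (mul_le_mul_of_nonneg_right hPR (sq_nonneg _))
  have hmul2 : ((c.x : ℝ) ^ 2 + (c.y : ℝ) ^ 2) * ((d.x : ℝ) ^ 2 + (d.y : ℝ) ^ 2) ≤ C := by
    rw [hC, le_div_iff₀ (by positivity)]
    calc _ = (δ * ((c.x : ℝ) ^ 2 + (c.y : ℝ) ^ 2)) * (δ * ((d.x : ℝ) ^ 2 + (d.y : ℝ) ^ 2)) := by
          ring
      _ ≤ _ := hmul
  refine ⟨?_, ?_⟩
  · simp only [Set.mem_ofPred_eq]
    nlinarith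
  · simp only [Set.mem_ofPred_eq]
    nlinarith

/-- FORMB. -/
theorem formb (hfin : FinStatement) : FormbStatement := by
  refine ⟨formb_pd, ?_⟩
  intro G e z z'
  rcases e with _ | p
  · convert Set.finite_empty
    rw [Set.eq_empty_iff_forall_notMem]
    rintro s ⟨⟨q, hq, -⟩, -⟩
    simp at hq
  refine (hfin |dt p.1 p.2| z z').subset ?_
  rintro ⟨c, d⟩ ⟨hG, hs⟩
  simp only at hG hs
  refine ⟨abs_dt_of_ge hG, ?_⟩
  have hev : ∀ z a b : Cusp, (cform z).ev a b = (dt z a : ℝ) * dt z b := by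
    intro z a b
    simp only [cform, Form.ev, dt]
    push_cast
    ring
  rw [hev, hev] at hs
  show Cross c d z z'
  rw [cross_swap]
  unfold Cross
  have hs' : (dt z c * dt z d) * (dt z' c * dt z' d) < 0 := by exact_mod_cast hs
  calc dt z c * dt z' c * (dt z d * dt z' d) = (dt z c * dt z d) * (dt z' c * dt z' d) := by ring
    _ < 0 := hs'

end Pool.Agent.Lib.MP_eee7a8_ag.TB.C80
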