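import Pool.Agent.Lib.MP_eee7a8_ag.TB.C80.Forma
import Pool.Agent.Lib.MP_eee7a8_ag.TB.StrandLem

/-!
# TAGBR, module NCLSEP
-/

open Matrix

namespace Pool.Agent.Lib.MP_eee7a8_ag.TB.C80

/-- The bilinear form on real vectors. -/
def evR (B : Form) (x y x' y' : ℝ) : ℝ := B.p * x * x' + B.q * (x * y' + y * x') + B.r * y * y'

theorem ev_eq_evR (B : Form) (a b : Cusp) : B.ev a b = evR B a.x a.y b.x b.y := rfl

/-- Values of `g B` on eigenvectors of `g`. -/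
theorem evR_act (g : SLZ) (B : Form) (l m : ℝ) (hl : l + m = g.1 0 0 + g.1 1 1)
    (hlm : l * m = 1) :
    evR (Form.act g B) (l - g.1 1 1) (g.1 1 0) (l - g.1 1 1) (g.1 1 0) =
      m ^ 2 * evR B (l - g.1 1 1) (g.1 1 0) (l - g.1 1 1) (g.1 1 0) ∧
    evR (Form.act g B) (l - g.1 1 1) (g.1 1 0) (m - g.1 1 1) (g.1 1 0) =
      evR B (l - g.1 1 1) (g.1 1 0) (m - g.1 1 1) (g.1 1 0) := by
  have hd : (g.1 0 0 : ℝ) * g.1 1 1 - g.1 0 1 * g.1 1 0 = 1 := by exact_mod_cast det_eq g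
  -- `g⁻¹ u = m u`
  have gen : ∀ x y x' y' : ℝ, evR (Form.act g B) x y x' y' =
      evR B (g.1 1 1 * x - g.1 0 1 * y) (-(g.1 1 0 * x) + g.1 0 0 * y)
        (g.1 1 1 * x' - g.1 0 1 * y') (-(g.1 1 0 * x') + g.1 0 0 * y') := by
    intro x y x' y'
    simp only [evR, Form.act]
    ring
  have e1 : (g.1 1 1 : ℝ) * (l - g.1 1 1) - g.1 0 1 * g.1 1 0 = m * (l - g.1 1 1) := by
    linear_combination hd - hlm + (g.1 1 1 : ℝ) * hl
  have e2 : -((g.1 1 0 : ℝ) * (l - g.1 1 1)) + g.1 0 0 * g.1 1 0 = m * g.1 1 0 := by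
    linear_combination -(g.1 1 0 : ℝ) * hl
  have e3 : (g.1 1 1 : ℝ) * (m - g.1 1 1) - g.1 0 1 * g.1 1 0 = l * (m - g.1 1 1) := by
    linear_combination hd - hlm + (g.1 1 1 : ℝ) * hl
  have e4 : -((g.1 1 0 : ℝ) * (m - g.1 1 1)) + g.1 0 0 * g.1 1 0 = l * g.1 1 0 := by
    linear_combination -(g.1 1 0 : ℝ) * hl
  constructor
  · rw [gen, e1, e2]
    simp only [evR]
    ring
  · rw [gen, e1, e2, e3, e4]
    simp only [evR]
    linear_combination (B.p * (l - g.1 1 1) * (m - g.1 1 1) +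
      B.q * ((l - g.1 1 1) * g.1 1 0 + g.1 1 0 * (m - g.1 1 1)) + B.r * g.1 1 0 * g.1 1 0) * hlm

theorem evR_act_pow (g : SLZ) (B : Form) (l m : ℝ) (hl : l + m = g.1 0 0 + g.1 1 1)
    (hlm : l * m = 1) (n : ℕ) :
    evR (Form.act (g ^ n) B) (l - g.1 1 1) (g.1 1 0) (l - g.1 1 1) (g.1 1 0) =
      (m ^ 2) ^ n * evR B (l - g.1 1 1) (g.1 1 0) (l - g.1 1 1) (g.1 1 0) ∧
    evR (Form.act (g ^ n) B) (m - g.1 1 1) (g.1 1 0) (m - g.1 1 1) (g.1 1 0) =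
      (l ^ 2) ^ n * evR B (m - g.1 1 1) (g.1 1 0) (m - g.1 1 1) (g.1 1 0) ∧
    evR (Form.act (g ^ n) B) (l - g.1 1 1) (g.1 1 0) (m - g.1 1 1) (g.1 1 0) =
      evR B (l - g.1 1 1) (g.1 1 0) (m - g.1 1 1) (g.1 1 0) := by
  induction n with
  | zero => simp [act_one]
  | succ n ih =>
    obtain ⟨h1, h2, h3⟩ := ih
    have k1 := evR_act g (Form.act (g ^ n) B) l m hl hlm
    have k2 := evR_act g (Form.act (g ^ n) B) m l (by rw [add_comm]; exact hl)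
      (by rw [mul_comm]; exact hlm)
    rw [act_act, ← pow_succ'] at k1 k2
    refine ⟨?_, ?_, ?_⟩
    · rw [k1.1, h1]
      ring
    · rw [k2.1, h2]
      ring
    · rw [k1.2, h3]

/-- Values of `g⁻ⁿ B` on eigenvectors of `g`. -/
theorem evR_act_pow_inv (g : SLZ) (B : Form) (l m : ℝ) (hl : l + m = g.1 0 0 + g.1 1 1)
    (hlm : l * m = 1) (n : ℕ) :
    evR (Form.act (g⁻¹ ^ n) B) (l - g.1 1 1) (g.1 1 0) (l - g.1 1 1) (g.1 1 0) =
      (l ^ 2) ^ n * evR B (l - g.1 1 1) (g.1 1 0) (l - g.1 1 1) (g.1 1 0) ∧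
    evR (Form.act (g⁻¹ ^ n) B) (m - g.1 1 1) (g.1 1 0) (m - g.1 1 1) (g.1 1 0) =
      (m ^ 2) ^ n * evR B (m - g.1 1 1) (g.1 1 0) (m - g.1 1 1) (g.1 1 0) ∧
    evR (Form.act (g⁻¹ ^ n) B) (l - g.1 1 1) (g.1 1 0) (m - g.1 1 1) (g.1 1 0) =
      evR B (l - g.1 1 1) (g.1 1 0) (m - g.1 1 1) (g.1 1 0) := by
  have k := evR_act_pow g (Form.act (g⁻¹ ^ n) B) l m hl hlm n
  have h1 : Form.act (g ^ n) (Form.act (g⁻¹ ^ n) B) = B := by
    rw [act_act, inv_pow, mul_inv_cancel, act_one]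
  rw [h1] at k
  obtain ⟨k1, k2, k3⟩ := k
  have hl2 : (l ^ 2) ^ n * (m ^ 2) ^ n = 1 := by
    rw [← mul_pow, ← mul_pow, hlm]; simp
  refine ⟨?_, ?_, k3.symm⟩
  · rw [k1, ← mul_assoc, hl2, one_mul]
  · rw [k2, ← mul_assoc, mul_comm ((m ^ 2) ^ n), hl2, one_mul]

/-- Decomposition along eigenvectors. -/
theorem evR_decomp (g : SLZ) (B : Form) (l m : ℝ) (hl : l + m = g.1 0 0 + g.1 1 1)
    (x y x' y' : ℝ) :
    ((g.1 1 0 : ℝ) * (l - m)) ^ 2 * evR B x y x' y' =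
      (g.1 1 0 * x + (l - g.1 0 0) * y) * (g.1 1 0 * x' + (l - g.1 0 0) * y') *
        evR B (l - g.1 1 1) (g.1 1 0) (l - g.1 1 1) (g.1 1 0) -
      ((g.1 1 0 * x + (l - g.1 0 0) * y) * (g.1 1 0 * x' + (m - g.1 0 0) * y') +
        (g.1 1 0 * x + (m - g.1 0 0) * y) * (g.1 1 0 * x' + (l - g.1 0 0) * y')) *
        evR B (l - g.1 1 1) (g.1 1 0) (m - g.1 1 1) (g.1 1 0) +
      (g.1 1 0 * x + (m - g.1 0 0) * y) * (g.1 1 0 * x' + (m - g.1 0 0) * y') *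
        evR B (m - g.1 1 1) (g.1 1 0) (m - g.1 1 1) (g.1 1 0) := by
  have hl' : (g.1 0 0 : ℝ) = l + m - g.1 1 1 := by linarith
  simp only [evR]
  rw [hl']
  ring

/-- The key sign lemma: an exponential sum of constant sign. -/
theorem sign_lemma (A E D ρ : ℝ) (hρ : 1 < ρ)
    (h : ∀ n : ℕ, 0 < (A * ρ⁻¹ ^ n + E + D * ρ ^ n) * (A * ρ ^ n + E + D * ρ⁻¹ ^ n)) :
    0 ≤ A * D := by
  by_contra hn
  push Not at hn
  have key : ∀ A E D : ℝ, 0 < A → D < 0 →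
      (∀ n : ℕ, 0 < (A * ρ⁻¹ ^ n + E + D * ρ ^ n) * (A * ρ ^ n + E + D * ρ⁻¹ ^ n)) → False := by
    intro A E D hA hD h
    obtain ⟨n, hn⟩ := pow_unbounded_of_one_lt ((|E| + A) / (-D) + (|E| - D) / A) hρ
    have hi0 : 0 < ρ⁻¹ ^ n := by positivity
    have hi1 : ρ⁻¹ ^ n ≤ 1 := pow_le_one₀ (by positivity) (inv_le_one_of_one_le₀ hρ.le)
    have hE := abs_le.1 (le_refl |E|)
    have h1 : (|E| + A) / (-D) < ρ ^ n := by
      have : 0 ≤ (|E| - D) / A := div_nonneg (by linarith [abs_nonneg E]) hA.le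
      linarith
    have h2 : (|E| - D) / A < ρ ^ n := by
      have : 0 ≤ (|E| + A) / (-D) := div_nonneg (by linarith [abs_nonneg E]) (by linarith)
      linarith
    rw [div_lt_iff₀ (by linarith)] at h1
    rw [div_lt_iff₀ hA] at h2
    have h3 : A * ρ⁻¹ ^ n + E + D * ρ ^ n < 0 := by nlinarith
    have h4 : 0 < A * ρ ^ n + E + D * ρ⁻¹ ^ n := by nlinarith
    have := h n
    nlinarith
  rcases lt_or_gt_of_ne (show A ≠ 0 from fun e => by rw [e] at hn; simp at hn) with hA | hA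
  · have hD : 0 < D := by nlinarith
    exact key (-A) (-E) (-D) (by linarith) (by linarith) (fun n => by
      have := h n
      nlinarith)
  · have hD : D < 0 := by nlinarith
    exact key A E D hA hD h

/-- NCLSEP. -/
theorem nclsep : NclsepStatement := by
  intro G hG e he B hp hq hne g hg htr hsep c d hcd
  -- Ge is invariant
  have hinv : ∀ h ∈ G, ∀ c d, Ge G e c d → Ge G e (h • c) (h • d) := by
    rintro h hh c d ⟨p, hp, k, hk, hkcd⟩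
    refine ⟨p, hp, h * k, G.mul_mem hh hk, ?_⟩
    rcases hkcd with ⟨h1, h2⟩ | ⟨h1, h2⟩
    · left; rw [mul_smul, mul_smul, h1, h2]; exact ⟨rfl, rfl⟩
    · right; rw [mul_smul, mul_smul, h1, h2]; exact ⟨rfl, rfl⟩
  -- one step
  have hev : ∀ h ∈ G, ∀ X : Form, ∀ c d, (Form.act h X).ev c d =
      ((eps h (h⁻¹ • c) * eps h (h⁻¹ • d) : ℤ) : ℝ) * X.ev (h⁻¹ • c) (h⁻¹ • d) := by
    intro h hh X c d
    have := ev_act h X (h⁻¹ • c) (h⁻¹ • d)
    rwa [smul_inv_smul, smul_inv_smul] at this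
  have hne' : ∀ h ∈ G, ∀ c d, Ge G e c d → (Form.act h B).ev c d ≠ 0 := by
    intro h hh c d hcd
    rw [hev h hh]
    have h1 := hne _ _ (hinv h⁻¹ (G.inv_mem hh) c d hcd)
    have h2 : ((eps h (h⁻¹ • c) * eps h (h⁻¹ • d) : ℤ) : ℝ) ≠ 0 := by
      exact_mod_cast mul_ne_zero (eps_ne_zero _ _) (eps_ne_zero _ _)
    exact mul_ne_zero h2 h1
  have hstep : ∀ c d, Ge G e c d → 0 < (Form.act g B).ev c d * B.ev c d := by
    intro c d hcd
    have h1 : ¬ (B.ev c d * (Form.act g B).ev c d < 0) := by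
      intro h
      have : (c, d) ∈ Sep G e B (Form.act g B) := ⟨hcd, h⟩
      rw [hsep] at this
      exact this
    have h2 := mul_ne_zero (hne c d hcd) (hne' g hg c d hcd)
    rw [mul_comm]
    exact lt_of_le_of_ne (not_lt.1 h1) (Ne.symm h2)
  have hstep2 : ∀ h ∈ G, ∀ c d, Ge G e c d →
      0 < (Form.act (h * g) B).ev c d * (Form.act h B).ev c d := by
    intro h hh c d hcd
    rw [← act_act, hev h hh, hev h hh]
    have h1 := hstep _ _ (hinv h⁻¹ (G.inv_mem hh) c d hcd)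
    have h2 : ((eps h (h⁻¹ • c) * eps h (h⁻¹ • d) : ℤ) : ℝ) *
        ((eps h (h⁻¹ • c) * eps h (h⁻¹ • d) : ℤ) : ℝ) = 1 := by
      have : (eps h (h⁻¹ • c) * eps h (h⁻¹ • d)) * (eps h (h⁻¹ • c) * eps h (h⁻¹ • d)) = 1 := by
        linear_combination eps h (h⁻¹ • d) * eps h (h⁻¹ • d) * eps_sq h (h⁻¹ • c) +
          eps_sq h (h⁻¹ • d)
      exact_mod_cast this
    calc (0 : ℝ) < (Form.act g B).ev (h⁻¹ • c) (h⁻¹ • d) * B.ev (h⁻¹ • c) (h⁻¹ • d) := h1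
      _ = _ := by linear_combination
                    (-((Form.act g B).ev (h⁻¹ • c) (h⁻¹ • d) * B.ev (h⁻¹ • c) (h⁻¹ • d))) * h2
  have hpos : ∀ n : ℕ, 0 < (Form.act (g ^ n) B).ev c d * B.ev c d := by
    intro n
    induction n with
    | zero =>
      rw [pow_zero, act_one]
      exact mul_self_pos.2 (hne c d hcd)
    | succ n ih =>
      have h1 := hstep2 (g ^ n) (G.pow_mem hg n) c d hcd
      rw [← pow_succ] at h1
      have h2 : 0 < ((Form.act (g ^ (n + 1)) B).ev c d * B.ev c d) *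
          ((Form.act (g ^ n) B).ev c d) ^ 2 := by
        calc (0 : ℝ) < _ := mul_pos h1 ih
          _ = _ := by ring
      exact pos_of_mul_pos_left h2 (sq_nonneg _)
  have hneg : ∀ n : ℕ, 0 < (Form.act (g⁻¹ ^ n) B).ev c d * B.ev c d := by
    intro n
    induction n with
    | zero =>
      rw [pow_zero, act_one]
      exact mul_self_pos.2 (hne c d hcd)
    | succ n ih =>
      have h1 := hstep2 (g⁻¹ ^ (n + 1)) (G.pow_mem (G.inv_mem hg) _) c d hcd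
      rw [pow_succ, mul_assoc, inv_mul_cancel, mul_one, ← pow_succ] at h1
      have h2 : 0 < ((Form.act (g⁻¹ ^ (n + 1)) B).ev c d * B.ev c d) *
          ((Form.act (g⁻¹ ^ n) B).ev c d) ^ 2 := by
        calc (0 : ℝ) < _ := mul_pos h1 ih
          _ = _ := by ring
      exact pos_of_mul_pos_left h2 (sq_nonneg _)
  -- eigenvalues
  have htr2 : (4 : ℝ) < ((g.1 0 0 : ℝ) + g.1 1 1) ^ 2 := by
    have h1 : (2 : ℤ) < |g.1 0 0 + g.1 1 1| := by
      have := htr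
      rwa [Matrix.trace_fin_two] at this
    have h2 : (4 : ℤ) < (g.1 0 0 + g.1 1 1) ^ 2 := by
      rw [← sq_abs]
      nlinarith
    exact_mod_cast h2
  obtain ⟨l, m, hl, hlm, hl1⟩ : ∃ l m : ℝ, l + m = g.1 0 0 + g.1 1 1 ∧ l * m = 1 ∧ 1 < l ^ 2 := by
    set t : ℝ := (g.1 0 0 : ℝ) + g.1 1 1 with ht
    set s : ℝ := Real.sqrt (t ^ 2 - 4) with hs
    have hs0 : 0 < s := Real.sqrt_pos.2 (by linarith)
    have hs2 : s ^ 2 = t ^ 2 - 4 := Real.sq_sqrt (by linarith)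
    rcases lt_or_ge 0 t with h | h
    · refine ⟨(t + s) / 2, (t - s) / 2, by ring, by nlinarith, ?_⟩
      nlinarith [mul_pos h hs0]
    · refine ⟨(t - s) / 2, (t + s) / 2, by ring, by nlinarith, ?_⟩
      nlinarith [mul_nonneg (neg_nonneg.2 h) hs0.le]
  have hgam : (g.1 1 0 : ℝ) ≠ 0 := by
    intro h0
    have hd : (g.1 0 0 : ℝ) * g.1 1 1 - g.1 0 1 * g.1 1 0 = 1 := by exact_mod_cast det_eq g
    have h0' : g.1 1 0 = 0 := by exact_mod_cast h0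
    have hd' := det_eq g
    rw [h0', mul_zero, sub_zero] at hd'
    have h1 : (g.1 0 0 + g.1 1 1) ^ 2 = 4 := by
      rcases Int.mul_eq_one_iff_eq_one_or_neg_one.1 hd' with ⟨h1, h2⟩ | ⟨h1, h2⟩ <;>
        rw [h1, h2] <;> norm_num
    have h2 : ((g.1 0 0 : ℝ) + g.1 1 1) ^ 2 = 4 := by exact_mod_cast h1
    linarith
  have hlm' : l - m ≠ 0 := by
    intro h
    have : l = m := by linarith
    rw [this] at hl1 hlm
    nlinarith
  have hm2 : m ^ 2 = (l ^ 2)⁻¹ := by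
    apply eq_inv_of_mul_eq_one_left
    rw [← mul_pow, mul_comm m l, hlm, one_pow]
  -- positivity on real vectors
  have hr : 0 < B.r := by
    by_contra hn
    have : B.p * B.r ≤ 0 := mul_nonpos_of_nonneg_of_nonpos hp.le (not_lt.1 hn)
    nlinarith [sq_nonneg B.q]
  have hpd : ∀ x : ℝ, 0 < evR B x (g.1 1 0) x (g.1 1 0) := by
    intro x
    have h1 : B.p * evR B x (g.1 1 0) x (g.1 1 0) = (B.p * x + B.q * g.1 1 0) ^ 2 +
        (B.p * B.r - B.q ^ 2) * (g.1 1 0 : ℝ) ^ 2 := by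
      simp only [evR]; ring
    have h2 : 0 < B.p * evR B x (g.1 1 0) x (g.1 1 0) := by
      rw [h1]
      have : 0 < (B.p * B.r - B.q ^ 2) * (g.1 1 0 : ℝ) ^ 2 :=
        mul_pos (by linarith) (by positivity)
      nlinarith [sq_nonneg (B.p * x + B.q * g.1 1 0)]
    exact pos_of_mul_pos_right h2 hp.le
  set Lc : ℝ := g.1 1 0 * c.x + (l - g.1 0 0) * c.y with hLc
  set Ld : ℝ := g.1 1 0 * d.x + (l - g.1 0 0) * d.y with hLd
  set Mc : ℝ := g.1 1 0 * c.x + (m - g.1 0 0) * c.y with hMc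
  set Md : ℝ := g.1 1 0 * d.x + (m - g.1 0 0) * d.y with hMd
  have hsidec : Lc * Mc = g.1 1 0 * (side g c : ℝ) := by
    have hd : (g.1 0 0 : ℝ) * g.1 1 1 - g.1 0 1 * g.1 1 0 = 1 := by exact_mod_cast det_eq g
    rw [hLc, hMc]
    unfold side
    push_cast
    linear_combination ((g.1 1 0 : ℝ) * c.x * c.y - (g.1 0 0 : ℝ) * c.y ^ 2) * hl +
      (c.y : ℝ) ^ 2 * hlm - (c.y : ℝ) ^ 2 * hd
  have hsided : Ld * Md = g.1 1 0 * (side g d : ℝ) := by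
    have hd : (g.1 0 0 : ℝ) * g.1 1 1 - g.1 0 1 * g.1 1 0 = 1 := by exact_mod_cast det_eq g
    rw [hLd, hMd]
    unfold side
    push_cast
    linear_combination ((g.1 1 0 : ℝ) * d.x * d.y - (g.1 0 0 : ℝ) * d.y ^ 2) * hl +
      (d.y : ℝ) ^ 2 * hlm - (d.y : ℝ) ^ 2 * hd
  set A : ℝ := Lc * Ld * evR B (l - g.1 1 1) (g.1 1 0) (l - g.1 1 1) (g.1 1 0) with hA
  set E : ℝ := -((Lc * Md + Mc * Ld) * evR B (l - g.1 1 1) (g.1 1 0) (m - g.1 1 1) (g.1 1 0)) with hE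
  set D : ℝ := Mc * Md * evR B (m - g.1 1 1) (g.1 1 0) (m - g.1 1 1) (g.1 1 0) with hD
  have hκ : 0 < ((g.1 1 0 : ℝ) * (l - m)) ^ 2 := by positivity
  have hf : ∀ n : ℕ, ((g.1 1 0 : ℝ) * (l - m)) ^ 2 * (Form.act (g ^ n) B).ev c d =
      A * (l ^ 2)⁻¹ ^ n + E + D * (l ^ 2) ^ n := by
    intro n
    have h1 := evR_decomp g (Form.act (g ^ n) B) l m hl c.x c.y d.x d.y
    obtain ⟨k1, k2, k3⟩ := evR_act_pow g B l m hl hlm n
    rw [k1, k2, k3] at h1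
    rw [ev_eq_evR, h1, ← hm2, hA, hE, hD]
    ring
  have hb : ∀ n : ℕ, ((g.1 1 0 : ℝ) * (l - m)) ^ 2 * (Form.act (g⁻¹ ^ n) B).ev c d =
      A * (l ^ 2) ^ n + E + D * (l ^ 2)⁻¹ ^ n := by
    intro n
    have h1 := evR_decomp g (Form.act (g⁻¹ ^ n) B) l m hl c.x c.y d.x d.y
    obtain ⟨k1, k2, k3⟩ := evR_act_pow_inv g B l m hl hlm n
    rw [k1, k2, k3] at h1
    rw [ev_eq_evR, h1, ← hm2, hA, hE, hD]
    ring
  have hAD : 0 ≤ A * D := by
    refine sign_lemma A E D (l ^ 2) hl1 ?_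
    intro n
    rw [← hf, ← hb]
    have h1 := mul_pos (hpos n) (hneg n)
    have h2 : 0 < ((Form.act (g ^ n) B).ev c d * (Form.act (g⁻¹ ^ n) B).ev c d) *
        (B.ev c d) ^ 2 := by
      calc (0 : ℝ) < _ := h1
        _ = _ := by ring
    have h3 := pos_of_mul_pos_left h2 (sq_nonneg _)
    calc (0 : ℝ) < (((g.1 1 0 : ℝ) * (l - m)) ^ 2) ^ 2 *
          ((Form.act (g ^ n) B).ev c d * (Form.act (g⁻¹ ^ n) B).ev c d) := by positivity
      _ = _ := by ring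
  have hAD2 : A * D = (g.1 1 0 : ℝ) ^ 2 * ((side g c : ℝ) * side g d) *
      (evR B (l - g.1 1 1) (g.1 1 0) (l - g.1 1 1) (g.1 1 0) *
       evR B (m - g.1 1 1) (g.1 1 0) (m - g.1 1 1) (g.1 1 0)) := by
    rw [hA, hD]
    calc _ = (Lc * Mc) * (Ld * Md) * (evR B (l - g.1 1 1) (g.1 1 0) (l - g.1 1 1) (g.1 1 0) *
       evR B (m - g.1 1 1) (g.1 1 0) (m - g.1 1 1) (g.1 1 0)) := by ring
      _ = _ := by rw [hsidec, hsided]; ring
  have hs0 : 0 ≤ (side g c : ℝ) * side g d := by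
    rw [hAD2] at hAD
    by_contra hn
    push Not at hn
    have h1 : 0 < (g.1 1 0 : ℝ) ^ 2 := by positivity
    have h2 := mul_pos (hpd (l - g.1 1 1)) (hpd (m - g.1 1 1))
    have h3 := mul_neg_of_neg_of_pos (mul_neg_of_pos_of_neg h1 hn) h2
    linarith
  have hs1 : 0 ≤ side g c * side g d := by exact_mod_cast hs0
  exact lt_of_le_of_ne hs1 (Ne.symm (mul_ne_zero (PB.side_ne_zero htr c) (PB.side_ne_zero htr d)))

end Pool.Agent.Lib.MP_eee7a8_ag.TB.C80
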